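import Pool.Agent.FLX.Stmts
import Pool.Agent.FLX.Kit

/-!
# Squad FLX: row REA
-/

set_option autoImplicit false

open scoped InnerProductSpace Topology ContDiff Manifold
open MeasureTheory Filter Set

noncomputable section

namespace Pool.Agent.FLX.H32

open Pool.Agent.Helper42_Paneitz Pool.Agent.Helper82_Vir Pool.Agent.FLX

/-! ### the projection to the sphere -/

/-- the projection to the sphere -/
def nn (y : E5) : E5 := ‖y‖⁻¹ • y

/-- its derivative -/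
def Dn (y : E5) : E5 →L[ℝ] E5 :=
  ‖y‖⁻¹ • (ContinuousLinearMap.id ℝ E5 - (innerSL ℝ (nn y)).smulRight (nn y))

theorem Dn_apply (y v : E5) : Dn y v = ‖y‖⁻¹ • (v - ⟪nn y, v⟫_ℝ • nn y) := rfl

theorem norm_nn {y : E5} (hy : y ≠ 0) : ‖nn y‖ = 1 := by
  unfold nn
  rw [norm_smul, norm_inv, norm_norm, inv_mul_cancel₀ (norm_ne_zero_iff.2 hy)]

/-- the projection as a point of the sphere -/
def sy {y : E5} (hy : y ≠ 0) : S4 := ⟨‖y‖⁻¹ • y, normalize_mem hy⟩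

theorem sy_coe {y : E5} (hy : y ≠ 0) : (sy hy : E5) = nn y := rfl

theorem hasFDerivAt_nn {y : E5} (hy : y ≠ 0) : HasFDerivAt nn (Dn y) y := by
  have hn : ‖y‖ ≠ 0 := norm_ne_zero_iff.2 hy
  have h1 : HasFDerivAt (fun y : E5 => ‖y‖ ^ 2) (2 • innerSL ℝ y) y :=
    (hasStrictFDerivAt_norm_sq y).hasFDerivAt
  have h2 : HasFDerivAt (fun y : E5 => √(‖y‖ ^ 2))
      ((1 / (2 * √(‖y‖ ^ 2))) • (2 • innerSL ℝ y)) y :=
    h1.sqrt (by positivity)
  have h3 : (fun y : E5 => √(‖y‖ ^ 2)) = fun y => ‖y‖ := by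
    funext y; exact Real.sqrt_sq (norm_nonneg y)
  rw [h3, Real.sqrt_sq (norm_nonneg y)] at h2
  have h4 : HasFDerivAt (fun y : E5 => ‖y‖⁻¹)
      (-(‖y‖ ^ 2)⁻¹ • ((1 / (2 * ‖y‖)) • (2 • innerSL ℝ y))) y :=
    (hasDerivAt_inv hn).comp_hasFDerivAt y h2
  have h5 := h4.fun_smul (hasFDerivAt_id y)
  refine h5.congr_fderiv ?_
  ext v : 1
  simp only [_root_.add_apply, _root_.smul_apply,
    ContinuousLinearMap.smulRight_apply, ContinuousLinearMap.coe_id', id_eq, Dn_apply, nn,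
    innerSL_apply_apply, inner_smul_left, smul_sub, smul_smul, nsmul_eq_mul, smul_eq_mul,
    RCLike.conj_to_real]
  rw [sub_eq_add_neg, ← neg_smul]
  congr 2
  push_cast
  field_simp

theorem inner_Dn {y : E5} (hy : y ≠ 0) (v : E5) : ⟪nn y, Dn y v⟫_ℝ = 0 := by
  rw [Dn_apply, inner_smul_right, inner_sub_right, inner_smul_right, real_inner_self_eq_norm_sq,
    norm_nn hy]
  ring

theorem norm_Dn_le {y : E5} (hy : y ≠ 0) (v : E5) : ‖Dn y v‖ ≤ 2 * ‖y‖⁻¹ * ‖v‖ := by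
  rw [Dn_apply, norm_smul, norm_inv, norm_norm]
  have h1 : ‖v - ⟪nn y, v⟫_ℝ • nn y‖ ≤ 2 * ‖v‖ := by
    refine (norm_sub_le _ _).trans ?_
    rw [norm_smul, norm_nn hy, mul_one]
    have h2 := norm_inner_le_norm (𝕜 := ℝ) (nn y) v
    rw [norm_nn hy, one_mul] at h2
    linarith
  have h2 : 0 ≤ ‖y‖⁻¹ := by positivity
  nlinarith

/-- the functional `v ↦ <z, Dn y v>` -/
def ph (y : E5) (z : S4) : E5 →L[ℝ] ℝ := (innerSL ℝ (z : E5)).comp (Dn y)

theorem ph_apply (y : E5) (z : S4) (v : E5) : ph y z v = ⟪(z : E5), Dn y v⟫_ℝ := rfl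

theorem norm_ph_le {y : E5} (hy : y ≠ 0) (z : S4) :
    ‖ph y z‖ ≤ ‖(z : E5) - nn y‖ * (2 * ‖y‖⁻¹) := by
  apply ContinuousLinearMap.opNorm_le_bound _ (by positivity)
  intro v
  have h1 : ph y z v = ⟪(z : E5) - nn y, Dn y v⟫_ℝ := by
    rw [ph_apply, inner_sub_left, inner_Dn hy, sub_zero]
  rw [h1]
  refine (norm_inner_le_norm _ _).trans ?_
  rw [mul_assoc]
  exact mul_le_mul_of_nonneg_left (norm_Dn_le hy v) (norm_nonneg _)

theorem norm_ph_le' {y : E5} (hy : y ≠ 0) (z : S4) : ‖ph y z‖ ≤ 4 * ‖y‖⁻¹ := by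
  refine (norm_ph_le hy z).trans ?_
  have h1 : ‖(z : E5) - nn y‖ ≤ 2 := by
    refine (norm_sub_le _ _).trans ?_
    rw [norm_nn hy, S4_norm]
    norm_num
  have h2 : 0 ≤ ‖y‖⁻¹ := by positivity
  nlinarith

theorem norm_sub_nn {y : E5} (hy : y ≠ 0) (z : S4) :
    ‖(z : E5) - nn y‖ ^ 2 = 2 * (1 - ⟪nn y, (z : E5)⟫_ℝ) := by
  rw [norm_sub_sq_real, S4_norm, norm_nn hy, real_inner_comm]
  ring

theorem inner_le {y : E5} (hy : y ≠ 0) (z : S4) : ⟪nn y, (z : E5)⟫_ℝ ≤ 1 :=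
  inner_le_one (sy hy) z

theorem le_inner {y : E5} (hy : y ≠ 0) (z : S4) : -1 ≤ ⟪nn y, (z : E5)⟫_ℝ :=
  neg_one_le_inner (sy hy) z

theorem ae_lt {y : E5} (hy : y ≠ 0) : ∀ᵐ z : S4 ∂sig, ⟪nn y, (z : E5)⟫_ℝ < 1 := by
  filter_upwards [ae_ne (sy hy)] with z hz
  refine lt_of_le_of_ne (inner_le hy z) ?_
  intro h
  apply hz
  apply Subtype.ext
  rw [sy_coe]
  exact ((inner_eq_one_iff_of_norm_eq_one (norm_nn hy) (S4_norm z)).1 h).symm

theorem continuousAt_nn {y : E5} (hy : y ≠ 0) : ContinuousAt nn y :=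
  (hasFDerivAt_nn hy).continuousAt

theorem continuousAt_Dn {y : E5} (hy : y ≠ 0) : ContinuousAt Dn y := by
  have h1 : ContDiffAt ℝ ∞ nn y := contDiffAt_normalize hy
  have h2 : ContDiffAt ℝ 0 (fderiv ℝ nn) y := h1.fderiv_right (by norm_num)
  refine h2.continuousAt.congr ?_
  filter_upwards [eventually_ne_zero hy] with z hz
  exact (hasFDerivAt_nn hz).fderiv

theorem continuousAt_ph {y : E5} (hy : y ≠ 0) (z : S4) : ContinuousAt (fun y => ph y z) y :=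
  continuousAt_const.clm_comp (continuousAt_Dn hy)

theorem continuous_ph (y : E5) : Continuous (fun z => ph y z) := by
  have h1 : Continuous fun z : S4 => innerSL ℝ (z : E5) :=
    (innerSL ℝ).continuous.comp continuous_subtype_val
  exact h1.clm_comp continuous_const

/-! ### the kernels -/

/-- the derivative of `- log (1 - r s)` -/
def kf (r s : ℝ) : ℝ := r / (1 - r * s)

/-- the kernel of the derivative -/
def ker (g : S4 → ℝ) (r : ℝ) (y : E5) (z : S4) : E5 →L[ℝ] ℝ :=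
  (g z * kf r ⟪nn y, (z : E5)⟫_ℝ) • ph y z

/-- the kernel of the function -/
def fer (g : S4 → ℝ) (r : ℝ) (y : E5) (z : S4) : ℝ :=
  -Real.log (1 - r * ⟪nn y, (z : E5)⟫_ℝ) * g z

theorem den_ge_one_sub {r s : ℝ} (h0 : 0 < r) (hs : s ≤ 1) : 1 - r ≤ 1 - r * s := by
  nlinarith

theorem den_ge_half {r s : ℝ} (h0 : 0 < r) (h1 : r < 1) (hs : s ≤ 1) (hs' : -1 ≤ s) :
    (1 - s) / 2 ≤ 1 - r * s := by
  rcases le_or_gt 0 s with h | h
  · nlinarith
  · nlinarith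

theorem kf_le {r s : ℝ} (h0 : 0 < r) (h1 : r < 1) (hs : s ≤ 1) : |kf r s| ≤ (1 - r)⁻¹ := by
  unfold kf
  have h2 := den_ge_one_sub h0 hs
  have h3 : 0 < 1 - r := by linarith
  rw [abs_div, abs_of_pos h0, abs_of_pos (h3.trans_le h2), div_le_iff₀ (h3.trans_le h2)]
  have h4 : (1 - r)⁻¹ * (1 - r) ≤ (1 - r)⁻¹ * (1 - r * s) :=
    mul_le_mul_of_nonneg_left h2 (inv_nonneg.2 h3.le)
  rw [inv_mul_cancel₀ h3.ne'] at h4
  linarith

theorem kf_sub {r s : ℝ} (h0 : 0 < r) (h1 : r < 1) (hs : s < 1) (hs' : -1 ≤ s) :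
    |kf r s - kf 1 s| ≤ 2 * (1 - r) / (1 - s) ^ 2 := by
  have h2 := den_ge_half h0 h1 hs.le hs'
  have h3 : 0 < 1 - s := by linarith
  have h4 : 0 < 1 - r * s := by linarith
  have e : kf r s - kf 1 s = -((1 - r) / ((1 - r * s) * (1 - s))) := by
    unfold kf
    rw [one_mul]
    field_simp
    ring
  rw [e, abs_neg, abs_of_nonneg (by have : 0 < 1 - r := by linarith
                                    positivity)]
  rw [div_le_div_iff₀ (by positivity) (by positivity)]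
  have h5 : (1 - s) ^ 2 ≤ 2 * ((1 - r * s) * (1 - s)) := by nlinarith
  nlinarith

theorem rpow_id {s : ℝ} (hs : s < 1) :
    √(2 * (1 - s)) / (1 - s) ^ 2 = √2 * (1 - s) ^ (-(3 / 2) : ℝ) := by
  have h3 : 0 < 1 - s := by linarith
  rw [Real.sqrt_mul (by norm_num), Real.sqrt_eq_rpow (1 - s), mul_div_assoc]
  congr 1
  rw [← Real.rpow_natCast (1 - s) 2, ← Real.rpow_sub h3]
  norm_num

theorem norm_sub_nn' {y : E5} (hy : y ≠ 0) (z : S4) :
    ‖(z : E5) - nn y‖ = √(2 * (1 - ⟪nn y, (z : E5)⟫_ℝ)) := by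
  rw [← norm_sub_nn hy z, Real.sqrt_sq (norm_nonneg _)]

/-- the difference of the kernels -/
theorem norm_ker_sub {g : S4 → ℝ} {B : ℝ} (hB : ∀ z, |g z| ≤ B) {r : ℝ} (h0 : 0 < r) (h1 : r < 1)
    {y : E5} (hy : y ≠ 0) {z : S4} (hz : ⟪nn y, (z : E5)⟫_ℝ < 1) :
    ‖ker g r y z - ker g 1 y z‖ ≤
      (B * (4 * √2) * ‖y‖⁻¹ * (1 - r)) * (1 - ⟪nn y, (z : E5)⟫_ℝ) ^ (-(3 / 2) : ℝ) := by
  have hB0 : 0 ≤ B := (abs_nonneg _).trans (hB z)
  have e : ker g r y z - ker g 1 y z =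
      (g z * (kf r ⟪nn y, (z : E5)⟫_ℝ - kf 1 ⟪nn y, (z : E5)⟫_ℝ)) • ph y z := by
    unfold ker
    rw [mul_sub]
    exact (sub_smul _ _ _).symm
  rw [e, norm_smul, norm_mul, Real.norm_eq_abs, Real.norm_eq_abs]
  have h2 := kf_sub h0 h1 hz (le_inner hy z)
  have h3 := norm_ph_le hy z
  rw [norm_sub_nn' hy z] at h3
  have h4 := rpow_id hz
  have h5 : 0 < 1 - ⟪nn y, (z : E5)⟫_ℝ := by linarith
  have h6 : 0 < 1 - r := by linarith
  calc |g z| * |kf r ⟪nn y, (z : E5)⟫_ℝ - kf 1 ⟪nn y, (z : E5)⟫_ℝ| * ‖ph y z‖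
      ≤ B * (2 * (1 - r) / (1 - ⟪nn y, (z : E5)⟫_ℝ) ^ 2) *
        (√(2 * (1 - ⟪nn y, (z : E5)⟫_ℝ)) * (2 * ‖y‖⁻¹)) := by
        gcongr
        exact hB z
    _ = (B * 4 * ‖y‖⁻¹ * (1 - r)) *
        (√(2 * (1 - ⟪nn y, (z : E5)⟫_ℝ)) / (1 - ⟪nn y, (z : E5)⟫_ℝ) ^ 2) := by ring
    _ = _ := by rw [h4]; ring

theorem continuous_fer {g : S4 → ℝ} (hg : Continuous g) {r : ℝ} (h0 : 0 < r) (h1 : r < 1)
    {y : E5} (hy : y ≠ 0) : Continuous (fer g r y) := by
  unfold fer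
  have hi : Continuous fun z : S4 => ⟪nn y, (z : E5)⟫_ℝ := by fun_prop
  have h2 : ∀ z : S4, 1 - r * ⟪nn y, (z : E5)⟫_ℝ ≠ 0 := by
    intro z
    have := den_ge_one_sub h0 (inner_le hy z)
    have h6 : 0 < 1 - r := by linarith
    exact (h6.trans_le this).ne'
  exact ((continuous_const.sub (continuous_const.fun_mul hi)).log h2).fun_neg.fun_mul hg

theorem continuous_ker {g : S4 → ℝ} (hg : Continuous g) {r : ℝ} (h0 : 0 < r) (h1 : r < 1)
    {y : E5} (hy : y ≠ 0) : Continuous (ker g r y) := by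
  unfold ker kf
  have hi : Continuous fun z : S4 => ⟪nn y, (z : E5)⟫_ℝ := by fun_prop
  have h2 : ∀ z : S4, 1 - r * ⟪nn y, (z : E5)⟫_ℝ ≠ 0 := by
    intro z
    have := den_ge_one_sub h0 (inner_le hy z)
    have h6 : 0 < 1 - r := by linarith
    exact (h6.trans_le this).ne'
  refine (hg.fun_mul ?_).smul (continuous_ph y)
  exact continuous_const.div (continuous_const.sub (continuous_const.fun_mul hi)) h2

theorem norm_ker_le {g : S4 → ℝ} {B : ℝ} (hB : ∀ z, |g z| ≤ B) {r : ℝ} (h0 : 0 < r) (h1 : r < 1)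
    {y : E5} (hy : y ≠ 0) (z : S4) : ‖ker g r y z‖ ≤ B * (1 - r)⁻¹ * (4 * ‖y‖⁻¹) := by
  have hB0 : 0 ≤ B := (abs_nonneg _).trans (hB z)
  have h6 : 0 < 1 - r := by linarith
  unfold ker
  rw [norm_smul, norm_mul, Real.norm_eq_abs, Real.norm_eq_abs]
  have h2 := kf_le h0 h1 (inner_le hy z)
  have h3 := norm_ph_le' hy z
  gcongr
  exact hB z

theorem hasFDerivAt_fer {g : S4 → ℝ} {r : ℝ} (h0 : 0 < r) (h1 : r < 1)
    {y : E5} (hy : y ≠ 0) (z : S4) : HasFDerivAt (fun y => fer g r y z) (ker g r y z) y := by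
  have h2 : 1 - r * ⟪nn y, (z : E5)⟫_ℝ ≠ 0 := by
    have := den_ge_one_sub h0 (inner_le hy z)
    have h6 : 0 < 1 - r := by linarith
    exact (h6.trans_le this).ne'
  have h3 : HasFDerivAt (fun y => ⟪nn y, (z : E5)⟫_ℝ) (ph y z) y := by
    have h4 : HasFDerivAt (fun y => innerSL ℝ (z : E5) (nn y)) (ph y z) y :=
      (innerSL ℝ (z : E5)).hasFDerivAt.comp y (hasFDerivAt_nn hy)
    refine h4.congr_of_eventuallyEq (Eventually.of_forall fun w => ?_)
    show ⟪nn w, (z : E5)⟫_ℝ = ⟪(z : E5), nn w⟫_ℝ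
    exact real_inner_comm _ _
  have h5 : HasDerivAt (fun s : ℝ => -Real.log (1 - r * s) * g z)
      (g z * kf r ⟪nn y, (z : E5)⟫_ℝ) ⟪nn y, (z : E5)⟫_ℝ := by
    have h6 : HasDerivAt (fun s : ℝ => 1 - r * s) (-r) ⟪nn y, (z : E5)⟫_ℝ := by
      have := ((hasDerivAt_id ⟪nn y, (z : E5)⟫_ℝ).const_mul r).const_sub 1
      simpa using this
    have h7 := ((h6.log h2).fun_neg).mul_const (g z)
    refine h7.congr_deriv ?_
    unfold kf
    ring
  exact h5.comp_hasFDerivAt y h3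

/-! ### the integrals -/

theorem half_lt {y₀ y : E5} (h : y ∈ Metric.ball y₀ (‖y₀‖ / 2)) : ‖y₀‖ / 2 < ‖y‖ := by
  have h1 : dist y y₀ < ‖y₀‖ / 2 := h
  rw [dist_eq_norm] at h1
  have h2 : ‖y₀‖ ≤ ‖y - y₀‖ + ‖y‖ := by
    have := norm_sub_le y (y - y₀)
    rw [sub_sub_cancel] at this
    linarith
  linarith

theorem ne_zero_of_ball {y₀ y : E5} (h : y ∈ Metric.ball y₀ (‖y₀‖ / 2)) : y ≠ 0 := by
  have h1 := half_lt h
  have h2 : 0 < ‖y‖ := lt_of_le_of_lt (by positivity) h1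
  exact norm_pos_iff.1 h2

theorem inv_le_of_ball {y₀ y : E5} (hy₀ : y₀ ≠ 0) (h : y ∈ Metric.ball y₀ (‖y₀‖ / 2)) :
    ‖y‖⁻¹ ≤ 2 * ‖y₀‖⁻¹ := by
  have h1 := half_lt h
  have h0 : 0 < ‖y₀‖ := norm_pos_iff.2 hy₀
  have h2 : ‖y‖⁻¹ ≤ (‖y₀‖ / 2)⁻¹ := inv_anti₀ (by positivity) h1.le
  refine h2.trans (le_of_eq ?_)
  field_simp

theorem ball_mem {y₀ : E5} (hy₀ : y₀ ≠ 0) : Metric.ball y₀ (‖y₀‖ / 2) ∈ 𝓝 y₀ :=
  Metric.ball_mem_nhds _ (half_pos (norm_pos_iff.2 hy₀))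

theorem hasFDerivAt_int {g : S4 → ℝ} {B : ℝ} (hg : Continuous g) (hB : ∀ z, |g z| ≤ B) {r : ℝ}
    (h0 : 0 < r) (h1 : r < 1) {y : E5} (hy : y ≠ 0) :
    HasFDerivAt (fun y => ∫ z, fer g r y z ∂sig) (∫ z, ker g r y z ∂sig) y := by
  have hB0 : 0 ≤ B := (abs_nonneg _).trans (hB (sy hy))
  have h6 : 0 < 1 - r := by linarith
  refine hasFDerivAt_integral_of_dominated_of_fderiv_le
    (bound := fun _ => B * (1 - r)⁻¹ * (4 * (2 * ‖y‖⁻¹))) (ball_mem hy) ?_ ?_ ?_ ?_ ?_ ?_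
  · filter_upwards [ball_mem hy] with w hw
    exact (continuous_fer hg h0 h1 (ne_zero_of_ball hw)).aestronglyMeasurable
  · exact integrable_cont (continuous_fer hg h0 h1 hy)
  · exact (continuous_ker hg h0 h1 hy).aestronglyMeasurable
  · refine Eventually.of_forall fun z w hw => ?_
    refine (norm_ker_le hB h0 h1 (ne_zero_of_ball hw) z).trans ?_
    have := inv_le_of_ball hy hw
    gcongr
  · exact integrable_const _
  · exact Eventually.of_forall fun z w hw => hasFDerivAt_fer h0 h1 (ne_zero_of_ball hw) z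

theorem continuousAt_ker {g : S4 → ℝ} {r : ℝ} (h0 : 0 < r) (h1 : r < 1)
    {y : E5} (hy : y ≠ 0) (z : S4) : ContinuousAt (fun y => ker g r y z) y := by
  unfold ker kf
  have hi : ContinuousAt (fun y : E5 => ⟪nn y, (z : E5)⟫_ℝ) y :=
    (continuousAt_nn hy).inner continuousAt_const
  have h2 : 1 - r * ⟪nn y, (z : E5)⟫_ℝ ≠ 0 := by
    have := den_ge_one_sub h0 (inner_le hy z)
    have h6 : 0 < 1 - r := by linarith
    exact (h6.trans_le this).ne'
  have h3 : ContinuousAt (fun y : E5 => r / (1 - r * ⟪nn y, (z : E5)⟫_ℝ)) y :=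
    continuousAt_const.div (continuousAt_const.sub (continuousAt_const.mul hi)) h2
  have h4 : ContinuousAt (fun y : E5 => g z * (r / (1 - r * ⟪nn y, (z : E5)⟫_ℝ))) y :=
    continuousAt_const.mul h3
  exact h4.smul (continuousAt_ph hy z)

theorem continuousAt_int {g : S4 → ℝ} {B : ℝ} (hg : Continuous g) (hB : ∀ z, |g z| ≤ B) {r : ℝ}
    (h0 : 0 < r) (h1 : r < 1) {y : E5} (hy : y ≠ 0) :
    ContinuousAt (fun y => ∫ z, ker g r y z ∂sig) y := by
  have hB0 : 0 ≤ B := (abs_nonneg _).trans (hB (sy hy))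
  have h6 : 0 < 1 - r := by linarith
  refine continuousAt_of_dominated
    (bound := fun _ => B * (1 - r)⁻¹ * (4 * (2 * ‖y‖⁻¹))) ?_ ?_ ?_ ?_
  · filter_upwards [ball_mem hy] with w hw
    exact (continuous_ker hg h0 h1 (ne_zero_of_ball hw)).aestronglyMeasurable
  · filter_upwards [ball_mem hy] with w hw
    refine Eventually.of_forall fun z => ?_
    refine (norm_ker_le hB h0 h1 (ne_zero_of_ball hw) z).trans ?_
    have := inv_le_of_ball hy hw
    gcongr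
  · exact integrable_const _
  · exact Eventually.of_forall fun z => continuousAt_ker h0 h1 hy z

theorem meas_ker_one {g : S4 → ℝ} (hg : Continuous g) (y : E5) :
    AEStronglyMeasurable (ker g 1 y) sig := by
  unfold ker kf
  have hi : Continuous fun z : S4 => ⟪nn y, (z : E5)⟫_ℝ := by fun_prop
  have h1 : Measurable fun z : S4 => 1 / (1 - 1 * ⟪nn y, (z : E5)⟫_ℝ) :=
    (continuous_const.sub (continuous_const.fun_mul hi)).measurable.const_div 1
  have h2 : Measurable fun z : S4 => g z * (1 / (1 - 1 * ⟪nn y, (z : E5)⟫_ℝ)) :=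
    hg.measurable.mul h1
  exact h2.aestronglyMeasurable.smul (continuous_ph y).aestronglyMeasurable

theorem main_bound (pow : PowStmt) {g : S4 → ℝ} {B : ℝ} (hg : Continuous g)
    (hB : ∀ z, |g z| ≤ B) : ∃ C : ℝ, 0 ≤ C ∧ ∀ (r : ℝ), 0 < r → r < 1 → ∀ (y : E5), y ≠ 0 →
      ‖(∫ z, ker g r y z ∂sig) - ∫ z, ker g 1 y z ∂sig‖ ≤ C * (1 - r) * ‖y‖⁻¹ := by
  obtain ⟨C, hC0, hC⟩ := pow (3 / 2) (by norm_num)
  have hm := msig_pos
  have hB0 : 0 ≤ B := (abs_nonneg _).trans (hB ⟨EuclideanSpace.basisFun (Fin 5) ℝ 0, by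
    rw [mem_sphere_zero_iff_norm]; exact norm_ee 0⟩)
  refine ⟨B * (4 * √2) * C, by positivity, ?_⟩
  intro r h0 h1 y hy
  have h6 : 0 < 1 - r := by linarith
  obtain ⟨hi, hb⟩ := hC (sy hy)
  have hb1 : ∀ᵐ z : S4 ∂sig, ‖ker g r y z - ker g 1 y z‖ ≤
      (B * (4 * √2) * ‖y‖⁻¹ * (1 - r)) * (1 - ⟪nn y, (z : E5)⟫_ℝ) ^ (-(3 / 2) : ℝ) := by
    filter_upwards [ae_lt hy] with z hz
    exact norm_ker_sub hB h0 h1 hy hz
  have hi1 : Integrable (fun z : S4 => (B * (4 * √2) * ‖y‖⁻¹ * (1 - r)) *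
      (1 - ⟪nn y, (z : E5)⟫_ℝ) ^ (-(3 / 2) : ℝ)) sig := hi.const_mul _
  have hc := continuous_ker hg h0 h1 hy
  have hir : Integrable (ker g r y) sig := by
    refine Integrable.mono' (integrable_const (B * (1 - r)⁻¹ * (4 * ‖y‖⁻¹)))
      hc.aestronglyMeasurable (Eventually.of_forall fun z => ?_)
    exact norm_ker_le hB h0 h1 hy z
  have hid : Integrable (fun z => ker g r y z - ker g 1 y z) sig :=
    hi1.mono' (hc.aestronglyMeasurable.sub (meas_ker_one hg y)) hb1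
  have hi2 : Integrable (ker g 1 y) sig := by
    have h7 := hir.sub hid
    refine h7.congr (Eventually.of_forall fun z => ?_)
    show ker g r y z - (ker g r y z - ker g 1 y z) = ker g 1 y z
    exact sub_sub_cancel _ _
  rw [← integral_sub hir hi2]
  refine (norm_integral_le_of_norm_le hi1 hb1).trans ?_
  rw [integral_const_mul]
  have h8 : ∫ z : S4, (1 - ⟪nn y, (z : E5)⟫_ℝ) ^ (-(3 / 2) : ℝ) ∂sig ≤ C := hb
  have h9 : 0 ≤ B * (4 * √2) * ‖y‖⁻¹ * (1 - r) := by positivity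
  calc B * (4 * √2) * ‖y‖⁻¹ * (1 - r) * ∫ z : S4, (1 - ⟪nn y, (z : E5)⟫_ℝ) ^ (-(3 / 2) : ℝ) ∂sig
      ≤ B * (4 * √2) * ‖y‖⁻¹ * (1 - r) * C := mul_le_mul_of_nonneg_left h8 h9
    _ = _ := by ring

/-- the parameters -/
def rn (n : ℕ) : ℝ := 1 - 1 / ((n : ℝ) + 2)

theorem rn_pos (n : ℕ) : 0 < rn n := by
  unfold rn
  have h1 : (0 : ℝ) ≤ n := n.cast_nonneg
  have h2 : 1 / ((n : ℝ) + 2) < 1 := by
    rw [div_lt_one (by positivity)]
    linarith
  linarith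

theorem rn_lt (n : ℕ) : rn n < 1 := by
  unfold rn
  have h1 : (0 : ℝ) ≤ n := n.cast_nonneg
  have h2 : 0 < 1 / ((n : ℝ) + 2) := by positivity
  linarith

theorem tendsto_rn' : Tendsto (fun n => 1 - rn n) atTop (𝓝 0) := by
  have h1 : Tendsto (fun n : ℕ => 1 / ((n : ℝ) + 2)) atTop (𝓝 0) := by
    have h2 : Tendsto (fun n : ℕ => (n : ℝ) + 2) atTop atTop :=
      tendsto_atTop_add_const_right _ _ tendsto_natCast_atTop_atTop
    refine h2.inv_tendsto_atTop.congr fun n => ?_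
    show ((n : ℝ) + 2)⁻¹ = 1 / ((n : ℝ) + 2)
    rw [one_div]
  refine h1.congr fun n => ?_
  unfold rn
  ring

theorem tendsto_rn : Tendsto rn atTop (𝓝 1) := by
  have h1 := tendsto_rn'.const_sub 1
  simpa using h1

theorem locUnif (pow : PowStmt) {g : S4 → ℝ} {B : ℝ} (hg : Continuous g)
    (hB : ∀ z, |g z| ≤ B) : TendstoLocallyUniformlyOn (fun n y => ∫ z, ker g (rn n) y z ∂sig)
      (fun y => ∫ z, ker g 1 y z ∂sig) atTop {y : E5 | y ≠ 0} := by
  obtain ⟨C, hC0, hC⟩ := main_bound pow hg hB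
  rw [Metric.tendstoLocallyUniformlyOn_iff]
  intro ε hε y₀ hy₀
  have hy₀' : y₀ ≠ 0 := hy₀
  refine ⟨Metric.ball y₀ (‖y₀‖ / 2), mem_nhdsWithin_of_mem_nhds (ball_mem hy₀'), ?_⟩
  have h1 : Tendsto (fun n => C * (1 - rn n) * (2 * ‖y₀‖⁻¹)) atTop (𝓝 0) := by
    have := (tendsto_rn'.const_mul C).mul_const (2 * ‖y₀‖⁻¹)
    simpa using this
  filter_upwards [h1.eventually (gt_mem_nhds hε)] with n hn
  intro y hy
  rw [dist_comm, dist_eq_norm]
  refine (hC (rn n) (rn_pos n) (rn_lt n) y (ne_zero_of_ball hy)).trans_lt ?_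
  refine lt_of_le_of_lt ?_ hn
  have h2 := inv_le_of_ball hy₀' hy
  have h3 : 0 < 1 - rn n := by have := rn_lt n; linarith
  gcongr

theorem log_bound {r s : ℝ} (h0 : 0 < r) (h1 : r < 1) (hs : s < 1) (hs' : -1 ≤ s) :
    |Real.log (1 - r * s)| ≤ |Real.log (1 - s)| + Real.log 2 := by
  have h2 := den_ge_half h0 h1 hs.le hs'
  have h3 : 0 < 1 - s := by linarith
  have h4 : 0 < 1 - r * s := by linarith
  have h5 : 1 - r * s ≤ 2 := by nlinarith
  have h6 : Real.log (1 - r * s) ≤ Real.log 2 := Real.log_le_log h4 h5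
  have h7 : Real.log ((1 - s) / 2) ≤ Real.log (1 - r * s) := Real.log_le_log (by positivity) h2
  rw [Real.log_div h3.ne' (by norm_num)] at h7
  have h8 := neg_abs_le (Real.log (1 - s))
  have h9 := abs_nonneg (Real.log (1 - s))
  rw [abs_le]
  constructor
  · linarith
  · linarith

theorem tendsto_fer (ker' : KerStmt) {g : S4 → ℝ} {B : ℝ} (hg : Continuous g)
    (hB : ∀ z, |g z| ≤ B) {y : E5} (hy : y ≠ 0) :
    Tendsto (fun n => ∫ z, fer g (rn n) y z ∂sig) atTop (𝓝 (∫ z, ell (sy hy) z * g z ∂sig)) := by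
  have hB0 : 0 ≤ B := (abs_nonneg _).trans (hB (sy hy))
  have hi : Integrable (fun z => |ell (sy hy) z|) sig := (ker'.1 (sy hy)).abs
  refine tendsto_integral_of_dominated_convergence
    (fun z => (|ell (sy hy) z| + Real.log 2) * B) ?_ ?_ ?_ ?_
  · intro n
    exact (continuous_fer hg (rn_pos n) (rn_lt n) hy).aestronglyMeasurable
  · exact (hi.add (integrable_const _)).mul_const _
  · intro n
    filter_upwards [ae_lt hy] with z hz
    unfold fer
    rw [norm_mul, Real.norm_eq_abs, Real.norm_eq_abs, abs_neg]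
    have h1 := log_bound (rn_pos n) (rn_lt n) hz (le_inner hy z)
    have h2 : |ell (sy hy) z| = |Real.log (1 - ⟪nn y, (z : E5)⟫_ℝ)| := by
      unfold ell
      rw [abs_neg, sy_coe]
    rw [h2]
    have h3 : 0 ≤ Real.log 2 := Real.log_nonneg (by norm_num)
    exact mul_le_mul h1 (hB z) (abs_nonneg _) (by positivity)
  · filter_upwards [ae_lt hy] with z hz
    unfold fer ell
    rw [sy_coe]
    refine Tendsto.mul_const _ (Tendsto.neg ?_)
    have h1 : Tendsto (fun n => 1 - rn n * ⟪nn y, (z : E5)⟫_ℝ) atTop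
        (𝓝 (1 - 1 * ⟪nn y, (z : E5)⟫_ℝ)) := (tendsto_rn.mul_const _).const_sub 1
    rw [one_mul] at h1
    exact h1.log (by linarith)

theorem rea (pow : PowStmt) (ker' : KerStmt) : ReaStmt := by
  intro f hf y hy
  have hg : Continuous (fun z => f z - avg f) := hf.sub continuous_const
  obtain ⟨B, -, hB⟩ := exists_bound hg
  have hl := locUnif pow hg hB
  have hop : IsOpen {y : E5 | y ≠ 0} := isOpen_compl_singleton
  have hcont : ContinuousOn (fun y => ∫ z, ker (fun z => f z - avg f) 1 y z ∂sig)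
      {y : E5 | y ≠ 0} := by
    refine hl.continuousOn (Frequently.of_forall fun n => ?_)
    intro w hw
    exact (continuousAt_int hg hB (rn_pos n) (rn_lt n) hw).continuousWithinAt
  have hder : ∀ w : E5, w ≠ 0 → HasFDerivAt (fun y => 6 * msig * radialExt (K f) y)
      (∫ z, ker (fun z => f z - avg f) 1 w z ∂sig) w := by
    intro w hw
    refine hasFDerivAt_of_tendstoLocallyUniformlyOn hop hl
      (f := fun n y => ∫ z, fer (fun z => f z - avg f) (rn n) y z ∂sig)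
      (fun n x hx => hasFDerivAt_int hg hB (rn_pos n) (rn_lt n) hx) (fun x hx => ?_) hw
    have h1 := tendsto_fer ker' hg hB hx
    have h2 : 6 * msig * radialExt (K f) x = ∫ z, ell (sy hx) z * (f z - avg f) ∂sig := by
      rw [radialExt_apply _ hx]
      have hm := msig_ne
      show 6 * msig * ((∫ z, ell (sy hx) z * (f z - avg f) ∂sig) / (6 * msig)) = _
      field_simp
    rw [h2]
    exact h1
  have hm := msig_ne
  have hcs : Continuous fun L : E5 →L[ℝ] ℝ => (6 * msig)⁻¹ • L := continuous_const_smul _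
  refine contDiffAt_one_iff.2 ⟨fun w => (6 * msig)⁻¹ •
    ∫ z, ker (fun z => f z - avg f) 1 w z ∂sig, {y : E5 | y ≠ 0}, hop.mem_nhds hy,
    hcs.comp_continuousOn hcont, ?_⟩
  intro w hw
  have h1 := (hder w hw).const_mul (6 * msig)⁻¹
  refine h1.congr_of_eventuallyEq (Eventually.of_forall fun x => ?_)
  show radialExt (K f) x = (6 * msig)⁻¹ * (6 * msig * radialExt (K f) x)
  field_simp

end Pool.Agent.FLX.H32
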